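import Pool.Agent.H13.LK.Stmts
import Pool.Agent.H45.K2.ACT
import Pool.Agent.H33.K2.AP3
import Pool.Agent.H52.K2.RG

/-!
# Labels: the gateways of the class

The class of the uniformly maximal families has active tubes and unsaturated tails.
-/

set_option autoImplicit false

namespace Pool.LK

open Finset Real
open Pool.Agent.H49.Ent Pool.Agent.H32.Dense Pool.STK Pool.KA Pool.KSAT Pool.K2S

variable {m J : ℕ}

/-- A large event in a family of the class. -/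
theorem fcl_res {b a R τ : ℝ} (hτ : 0 ≤ τ) {F : Fam m J} {A : F.Ω → Prop}
    (hS : (Fcl m b a R).St τ F A) :
    ∃ h : IsLaw (Pool.Agent.H49.Ent.cond F.p A True), (F.res A True h).Tm (6 * τ * J) ∧
      Gge (F.res A True h) b a ((R - 2 * τ) * J) := by
  obtain ⟨⟨h1, h2, h3, h4⟩, h5⟩ := hS
  have hJ : 0 ≤ τ * (J : ℝ) := mul_nonneg hτ (Nat.cast_nonneg J)
  obtain ⟨h, -, -, k3, -⟩ := res_thm m J F 0 (τ * J) (τ * J) (τ * J) le_rfl hJ hJ h1 h4 h2 A h5
  refine ⟨h, ?_, (h3 A h).mono ?_⟩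
  · have e : τ * (J : ℝ) + 4 * (τ * J) + τ * J = 6 * τ * J := by ring
    rwa [e] at k3
  · have h7 := Real.log_le_log (Real.exp_pos _) h5
    rw [Real.log_exp] at h7
    linarith

/-- The entropy of the positions in the tubes. -/
theorem tub_CH (m : ℕ) : ∃ C : ℝ, 0 ≤ C ∧ ∀ (J : ℕ) (F : Fam m J) (q : ℕ) (hq : q ≤ J) (e : ℝ),
    F.Tm e → CH (F.tub q hq).p ((F.tub q hq).X (J - q)) (F.tub q hq).W ≤
      CH F.p (F.X J) (fun ω => (F.L q ω, F.W ω)) + e + C := by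
  obtain ⟨C, hC, h⟩ := aop_thm m
  refine ⟨C, hC, fun J F q hq e he => ?_⟩
  have h0 := (h J F 0 le_rfl).2.2.1 q hq e he
  have h1 := (h J F 1 zero_le_one).2.2.1 q hq e he
  unfold Fam.Ga at h0 h1
  rw [zero_mul, zero_mul, zero_mul, sub_zero, sub_zero, abs_le] at h0
  rw [one_mul, one_mul, one_mul, abs_le] at h1
  linarith [h0.1, h0.2, h1.1, h1.2]

/-- The entropy of the positions of the truncation. -/
theorem trc_CH (m : ℕ) : ∃ C : ℝ, 0 ≤ C ∧ ∀ (J : ℕ) (F : Fam m J) (x : ℕ) (hx : x ≤ J) (e : ℝ),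
    F.Tm e → CH (F.trc x hx).p ((F.trc x hx).X x) (F.trc x hx).W ≤
      CH F.p (F.X x) F.W + e + C := by
  obtain ⟨C, hC, h⟩ := aop_thm m
  refine ⟨C, hC, fun J F x hx e he => ?_⟩
  have h0 := (h J F 0 le_rfl).2.2.2 x hx e he
  have h1 := (h J F 1 zero_le_one).2.2.2 x hx e he
  unfold Fam.Ga at h0 h1
  rw [zero_mul, zero_mul, zero_mul, sub_zero, sub_zero, abs_le] at h0
  rw [one_mul, one_mul, one_mul, abs_le] at h1
  linarith [h0.1, h0.2, h1.1, h1.2]

theorem gle_tub {b a R : ℝ} (hU : UBl m b a R) {η κ : ℝ} (hη : 0 < η) (hκ : 0 < κ) :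
    ∃ θ > 0, ∃ J₀ : ℕ, ∀ J ≥ J₀, ∀ F : Fam m J, F.Tm (θ * J) →
      ∀ (q : ℕ) (hq : q ≤ J), κ * J ≤ (J : ℝ) - q →
        Gle (F.tub q hq) b a ((R + η) * ((J : ℝ) - q)) := by
  obtain ⟨θ₀, hθ₀, J₀, h0⟩ := hU η hη
  obtain ⟨C, hC, hT⟩ := tub_thm m
  refine ⟨θ₀ * κ, mul_pos hθ₀ hκ, ⌈(J₀ : ℝ) / κ⌉₊, ?_⟩
  intro J hJ F hF q hq hκq
  have h1 : (J₀ : ℝ) ≤ κ * J := by
    have h2 : (J₀ : ℝ) / κ ≤ J := (Nat.le_ceil _).trans (by exact_mod_cast hJ)
    rw [div_le_iff₀ hκ] at h2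
    linarith
  have h3 : ((J - q : ℕ) : ℝ) = (J : ℝ) - q := Nat.cast_sub hq
  have h4 : J₀ ≤ J - q := by
    have : (J₀ : ℝ) ≤ ((J - q : ℕ) : ℝ) := by rw [h3]; linarith
    exact_mod_cast this
  have h5 := (hT J F q hq _ hF).1
  have h6 : (F.tub q hq).Tm (θ₀ * ((J - q : ℕ) : ℝ)) := by
    unfold Fam.Tm at h5 ⊢
    have h7 : θ₀ * κ * J ≤ θ₀ * ((J - q : ℕ) : ℝ) := by
      rw [h3, mul_assoc]
      exact mul_le_mul_of_nonneg_left hκq hθ₀.le
    linarith
  have h8 := h0 (J - q) h4 (F.tub q hq) h6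
  rwa [h3] at h8

theorem gle_trc {b a R : ℝ} (hU : UBl m b a R) {η κ : ℝ} (hη : 0 < η) (hκ : 0 < κ) :
    ∃ θ > 0, ∃ J₀ : ℕ, ∀ J ≥ J₀, ∀ F : Fam m J, F.Tm (θ * J) →
      ∀ (x : ℕ) (hx : x ≤ J), κ * J ≤ (x : ℝ) → Gle (F.trc x hx) b a ((R + η) * (x : ℝ)) := by
  obtain ⟨θ₀, hθ₀, J₀, h0⟩ := hU η hη
  obtain ⟨C, hC, hT⟩ := trc_thm m
  refine ⟨θ₀ * κ, mul_pos hθ₀ hκ, ⌈(J₀ : ℝ) / κ⌉₊, ?_⟩
  intro J hJ F hF x hx hκx
  have h1 : (J₀ : ℝ) ≤ κ * J := by
    have h2 : (J₀ : ℝ) / κ ≤ J := (Nat.le_ceil _).trans (by exact_mod_cast hJ)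
    rw [div_le_iff₀ hκ] at h2
    linarith
  have h4 : J₀ ≤ x := by exact_mod_cast h1.trans hκx
  have h5 := (hT J F x hx _ hF).1
  have h6 : (F.trc x hx).Tm (θ₀ * (x : ℝ)) := by
    unfold Fam.Tm at h5 ⊢
    have h7 : θ₀ * κ * J ≤ θ₀ * (x : ℝ) := by
      rw [mul_assoc]
      exact mul_le_mul_of_nonneg_left hκx hθ₀.le
    linarith
  exact h0 x h4 (F.trc x hx) h6

/-- Tubes, for one family. -/
theorem tube_one (h1 : TUBLStmt) (m : ℕ) (b : ℝ) : ∃ C : ℝ, 0 ≤ C ∧ ∀ (J : ℕ) (F : Fam m J)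
    (q : ℕ) (hq : q ≤ J) (a e r s : ℝ), 1 ≤ a → F.Tm e → Gge F b a r → Gle (F.tub q hq) b a s →
      r ≤ s + a * CH F.p (F.D q) (fun ω => (F.X J ω, F.W ω)) + (1 + a) * (e + C) := by
  obtain ⟨C₁, hC₁, h1⟩ := h1 m b
  obtain ⟨C₂, hC₂, h2⟩ := tub_CH m
  have hcc : 0 ≤ cc m := by
    unfold cc
    exact mul_nonneg (by positivity) (Real.log_nonneg (by norm_num))
  refine ⟨C₁ + C₂ + cc m, by positivity, ?_⟩
  intro J F q hq a e r s ha he hr hs
  have hp := F.isLaw.nonneg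
  have he0 : 0 ≤ e := by
    have k1 : CH F.p F.T (fun ω => (F.l ω, F.Z ω)) ≤ J * Real.log 2 :=
      TRC.CH_lt F.isLaw F.T _ J F.tim
    unfold Fam.Tm at he
    linarith
  obtain ⟨B, hB⟩ := hs
  obtain ⟨B', hB'⟩ := h1 J q hq F B
  have h3 := hr B'
  have h4 := h2 J F q hq e he
  have hL : Det F.p F.l (F.L q) := by
    intro ω ω' _ _ h
    have h4 := Prod.ext_iff.1 h
    change (fl q (F.u ω), fl q (F.d ω)) = (fl q (F.u ω'), fl q (F.d ω'))
    rw [show F.u ω = F.u ω' from h4.1, show F.d ω = F.d ω' from h4.2]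
  have h5 := AP2.time_info F he (F.L q) hL
  have h6 := AP2.line_le F q hq
  have b2 := CH_bayes hp (F.L q) (F.X J) F.W
  have h7 : 0 ≤ (a - 1) * CH F.p (F.L q) F.W := mul_nonneg (by linarith) (CH_nonneg hp _ _)
  have k1 := mul_le_mul_of_nonneg_left h4 (show 0 ≤ a by linarith)
  have k2 := mul_le_mul_of_nonneg_left h6 (show 0 ≤ a by linarith)
  have k3 : a * (CH F.p (F.L q) F.W - CH F.p (F.L q) (fun ω => (F.X J ω, F.W ω))) =
      a * (CH F.p (F.X J) F.W - CH F.p (F.X J) (fun ω => (F.L q ω, F.W ω))) := by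
    congr 1
    linarith
  have k4 : 0 ≤ a * C₁ := mul_nonneg (by linarith) hC₁
  nlinarith [h3, hB', hB, h5, k1, k2, k3, h7, k4, hC₂, hcc]

/-- Tails, for one family. -/
theorem tail_one (h1 : TRCLStmt) (m : ℕ) (b : ℝ) : ∃ C : ℝ, 0 ≤ C ∧ ∀ (J : ℕ) (F : Fam m J)
    (x : ℕ) (hx : x ≤ J) (a e r s : ℝ), 1 ≤ a → F.Tm e → Gge F b a r → Gle (F.trc x hx) b a s →
      a * CH F.p (F.X J) (fun ω => (F.X x ω, F.W ω)) ≤
        m * (((J : ℝ) - x) * Real.log 2) + s - r + a * (e + C) := by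
  obtain ⟨C₂, hC₂, h2⟩ := trc_CH m
  refine ⟨C₂, hC₂, ?_⟩
  intro J F x hx a e r s ha he hr hs
  have hp := F.isLaw.nonneg
  obtain ⟨B, hB⟩ := hs
  obtain ⟨B', hB'⟩ := h1 m b J x hx F B
  have h3 := hr B'
  have h4 := h2 J F x hx e he
  have d2 : CH F.p (F.X J) F.W = CH F.p (F.X x) F.W +
      CH F.p (F.X J) (fun ω => (F.X x ω, F.W ω)) :=
    AP3.chain_det hp _ _ _ fun ω ω' _ _ e => Pool.STK.B58.fl_fine hx e
  have k1 := mul_le_mul_of_nonneg_left h4 (show 0 ≤ a by linarith)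
  rw [d2] at h3
  nlinarith [h3, hB', hB, k1]

/-- **(GWL)** The class of labels has the gateways. -/
theorem gwl_thm (h1 : TUBLStmt) (h2 : TRCLStmt) : GWLStmt := by
  intro m b a R hb ha hR hU
  have ha0 : 0 < a := by linarith
  have hl2 : 0 < Real.log 2 := Real.log_pos (by norm_num)
  refine ⟨fun η hη => ?_, fun η hη => ?_⟩
  · -- tubes
    obtain ⟨C, hC, h3⟩ := tube_one h1 m b
    obtain ⟨κ, hκ⟩ : ∃ κ, κ = η / (2 * (R + η)) := ⟨_, rfl⟩
    have hκ0 : 0 < κ := by rw [hκ]; positivity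
    have hκR : κ * (R + η) = η / 2 := by
      rw [hκ]
      field_simp
    have hκR' : R * κ ≤ η / 2 := by nlinarith
    have hκ1 : κ ≤ 1 := by
      by_contra hcon
      push Not at hcon
      nlinarith
    obtain ⟨θ, hθ, J₂, h4⟩ := gle_tub hU (show 0 < η / 8 by linarith) hκ0
    obtain ⟨τ, hτ⟩ : ∃ τ, τ = min (θ / 6) (η / (8 * (8 + 6 * a))) := ⟨_, rfl⟩
    have hτ0 : 0 < τ := by
      rw [hτ]
      exact lt_min (by linarith) (by positivity)
    have hτ1 : 6 * τ ≤ θ := by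
      have : τ ≤ θ / 6 := by rw [hτ]; exact min_le_left _ _
      linarith
    have hτ2 : (8 + 6 * a) * τ ≤ η / 8 := by
      have h5 : τ ≤ η / (8 * (8 + 6 * a)) := by rw [hτ]; exact min_le_right _ _
      rw [le_div_iff₀ (by positivity)] at h5
      linarith
    obtain ⟨J₁, hJ₁⟩ := exists_nat_gt (8 * ((1 + a) * C + R) / η)
    refine ⟨τ, hτ0, max J₂ (J₁ + 1), ?_⟩
    intro J hJ F A hS q hq
    have hJ2 : J₂ ≤ J := (le_max_left _ _).trans hJ
    have hJ1 : J₁ + 1 ≤ J := (le_max_right _ _).trans hJ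
    have hJr : (0 : ℝ) < J := by
      have : 0 < J := by omega
      exact_mod_cast this
    have hJC : (1 + a) * C + R ≤ η / 8 * J := by
      have h5 : 8 * ((1 + a) * C + R) / η < J := hJ₁.trans_le (by exact_mod_cast (by omega : J₁ ≤ J))
      rw [div_lt_iff₀ hη] at h5
      linarith
    obtain ⟨hlaw, hTm, hG⟩ := fcl_res hτ0.le hS
    have hp0 := hlaw.nonneg
    have hTθ : (F.res A True hlaw).Tm (θ * J) := by
      unfold Fam.Tm at hTm ⊢
      have := mul_le_mul_of_nonneg_right hτ1 hJr.le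
      linarith
    have main : ∀ q : ℕ, q ≤ J → κ * J ≤ (J : ℝ) - q → R * q ≤
        a * CH (Pool.Agent.H49.Ent.cond F.p A True) (F.D q) (fun ω => (F.X J ω, F.W ω)) +
          η / 4 * J + (1 + a) * C := by
      intro q hq hqκ
      have h5 := h3 J (F.res A True hlaw) q hq a _ _ _ ha hTm hG
        (h4 J hJ2 (F.res A True hlaw) hTθ q hq hqκ)
      have h6 : CH (F.res A True hlaw).p ((F.res A True hlaw).D q)
        (fun ω => ((F.res A True hlaw).X J ω, (F.res A True hlaw).W ω)) =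
        CH (Pool.Agent.H49.Ent.cond F.p A True) (F.D q) (fun ω => (F.X J ω, F.W ω)) := rfl
      rw [h6] at h5
      have h7 : (8 + 6 * a) * τ * J ≤ η / 8 * J := mul_le_mul_of_nonneg_right hτ2 hJr.le
      have h8 : 0 ≤ η / 8 * (q : ℝ) := by positivity
      nlinarith
    by_cases hqκ : κ * J ≤ (J : ℝ) - q
    · have h5 := main q hq hqκ
      nlinarith
    · push Not at hqκ
      obtain ⟨q₀, hq₀⟩ : ∃ q₀, q₀ = ⌊(1 - κ) * J⌋₊ := ⟨_, rfl⟩
      have e1 : (q₀ : ℝ) ≤ (1 - κ) * J := by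
        rw [hq₀]
        exact Nat.floor_le (mul_nonneg (by linarith) hJr.le)
      have e2 : (1 - κ) * J < q₀ + 1 := by
        rw [hq₀]
        exact Nat.lt_floor_add_one _
      have e3 : q₀ ≤ q := by
        have : (q₀ : ℝ) < q := by linarith
        exact_mod_cast this.le
      have h5 := main q₀ (e3.trans hq) (by linarith)
      have h6 : CH (Pool.Agent.H49.Ent.cond F.p A True) (F.D q₀) (fun ω => (F.X J ω, F.W ω)) ≤
          CH (Pool.Agent.H49.Ent.cond F.p A True) (F.D q) (fun ω => (F.X J ω, F.W ω)) :=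
        CH_mono_left hp0 fun ω ω' _ _ h => Pool.STK.B58.fl_fine e3 (Prod.ext_iff.mp h).1
      have h7 := mul_le_mul_of_nonneg_left h6 ha0.le
      have hqJ : (q : ℝ) ≤ J := by exact_mod_cast hq
      have h8 : R * q ≤ R * (q₀ + 1 + κ * J) := mul_le_mul_of_nonneg_left (by linarith) hR.le
      have h9 : R * (κ * J) ≤ η / 2 * J := by
        rw [← mul_assoc]
        exact mul_le_mul_of_nonneg_right hκR' hJr.le
      nlinarith
  · -- tails
    obtain ⟨C, hC, h3⟩ := tail_one h2 m b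
    obtain ⟨M, hM⟩ : ∃ M, M = a * (m * Real.log 2) + R := ⟨_, rfl⟩
    have hM0 : 0 < M := by rw [hM]; positivity
    obtain ⟨κ, hκ⟩ : ∃ κ, κ = min 1 (η / (2 * M)) := ⟨_, rfl⟩
    have hκ0 : 0 < κ := by
      rw [hκ]
      exact lt_min one_pos (by positivity)
    have hκ1 : κ ≤ 1 := by rw [hκ]; exact min_le_left _ _
    have hκM : M * κ ≤ η / 2 := by
      have h5 : κ ≤ η / (2 * M) := by rw [hκ]; exact min_le_right _ _
      rw [le_div_iff₀ (by positivity)] at h5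
      linarith
    obtain ⟨θ, hθ, J₂, h4⟩ := gle_trc hU (show 0 < η / 8 by linarith) hκ0
    obtain ⟨τ, hτ⟩ : ∃ τ, τ = min (θ / 6) (η / (8 * (2 + 6 * a))) := ⟨_, rfl⟩
    have hτ0 : 0 < τ := by
      rw [hτ]
      exact lt_min (by linarith) (by positivity)
    have hτ1 : 6 * τ ≤ θ := by
      have : τ ≤ θ / 6 := by rw [hτ]; exact min_le_left _ _
      linarith
    have hτ2 : (2 + 6 * a) * τ ≤ η / 8 := by
      have h5 : τ ≤ η / (8 * (2 + 6 * a)) := by rw [hτ]; exact min_le_right _ _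
      rw [le_div_iff₀ (by positivity)] at h5
      linarith
    obtain ⟨J₁, hJ₁⟩ := exists_nat_gt (8 * (a * C + M) / η)
    refine ⟨τ, hτ0, max J₂ (J₁ + 1), ?_⟩
    intro J hJ F A hS x hx
    have hJ2 : J₂ ≤ J := (le_max_left _ _).trans hJ
    have hJ1 : J₁ + 1 ≤ J := (le_max_right _ _).trans hJ
    have hJr : (0 : ℝ) < J := by
      have : 0 < J := by omega
      exact_mod_cast this
    have hJC : a * C + M ≤ η / 8 * J := by
      have h5 : 8 * (a * C + M) / η < J := hJ₁.trans_le (by exact_mod_cast (by omega : J₁ ≤ J))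
      rw [div_lt_iff₀ hη] at h5
      linarith
    obtain ⟨hlaw, hTm, hG⟩ := fcl_res hτ0.le hS
    have hp0 := hlaw.nonneg
    have hTθ : (F.res A True hlaw).Tm (θ * J) := by
      unfold Fam.Tm at hTm ⊢
      have := mul_le_mul_of_nonneg_right hτ1 hJr.le
      linarith
    have main : ∀ x : ℕ, x ≤ J → κ * J ≤ (x : ℝ) →
        a * CH (Pool.Agent.H49.Ent.cond F.p A True) (F.X J) (fun ω => (F.X x ω, F.W ω)) ≤
          (m * Real.log 2 - R) * ((J : ℝ) - x) + η / 4 * J + a * C := by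
      intro x hx hxκ
      have h5 := h3 J (F.res A True hlaw) x hx a _ _ _ ha hTm hG
        (h4 J hJ2 (F.res A True hlaw) hTθ x hx hxκ)
      have h6 : CH (F.res A True hlaw).p ((F.res A True hlaw).X J)
        (fun ω => ((F.res A True hlaw).X x ω, (F.res A True hlaw).W ω)) =
        CH (Pool.Agent.H49.Ent.cond F.p A True) (F.X J) (fun ω => (F.X x ω, F.W ω)) := rfl
      rw [h6] at h5
      have h7 : (2 + 6 * a) * τ * J ≤ η / 8 * J := mul_le_mul_of_nonneg_right hτ2 hJr.le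
      have hxJ : (x : ℝ) ≤ J := by exact_mod_cast hx
      have h8 : η / 8 * (x : ℝ) ≤ η / 8 * J := mul_le_mul_of_nonneg_left hxJ (by linarith)
      nlinarith
    by_cases hxκ : κ * J ≤ (x : ℝ)
    · have h5 := main x hx hxκ
      nlinarith
    · push Not at hxκ
      obtain ⟨x₁, hx₁⟩ : ∃ x₁, x₁ = ⌈κ * J⌉₊ := ⟨_, rfl⟩
      have e1 : κ * J ≤ (x₁ : ℝ) := by
        rw [hx₁]
        exact Nat.le_ceil _
      have e2 : (x₁ : ℝ) < κ * J + 1 := by
        rw [hx₁]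
        exact Nat.ceil_lt_add_one (by positivity)
      have e3 : x ≤ x₁ := by
        have : (x : ℝ) < x₁ := by linarith
        exact_mod_cast this.le
      have e4 : x₁ ≤ J := by
        rw [hx₁]
        refine Nat.ceil_le.2 ?_
        nlinarith
      have h5 := main x₁ e4 e1
      have d1 : CH (Pool.Agent.H49.Ent.cond F.p A True) (F.X J) (fun ω => (F.X x ω, F.W ω)) =
          CH (Pool.Agent.H49.Ent.cond F.p A True) (F.X x₁) (fun ω => (F.X x ω, F.W ω)) +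
          CH (Pool.Agent.H49.Ent.cond F.p A True) (F.X J)
            (fun ω => (F.X x₁ ω, (F.X x ω, F.W ω))) :=
        AP3.chain_det hp0 _ _ _ fun ω ω' _ _ e => Pool.STK.B58.fl_fine e4 e
      have d2 : CH (Pool.Agent.H49.Ent.cond F.p A True) (F.X J)
            (fun ω => (F.X x₁ ω, (F.X x ω, F.W ω))) ≤
          CH (Pool.Agent.H49.Ent.cond F.p A True) (F.X J) (fun ω => (F.X x₁ ω, F.W ω)) := by
        refine CH_mono_cond hp0 fun ω ω' _ _ e => ?_
        have k1 := Prod.ext_iff.1 e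
        exact Prod.ext k1.1 (Prod.ext_iff.1 k1.2).2
      have d3 : CH (Pool.Agent.H49.Ent.cond F.p A True) (F.X x₁) (fun ω => (F.X x ω, F.W ω)) ≤
          m * (((x₁ : ℝ) - x) * Real.log 2) := by
        have k1 := TRC.CH_floor hlaw F.x F.W x (x₁ - x)
        rw [Nat.add_sub_of_le e3, Nat.cast_sub e3] at k1
        exact k1
      have d4 : CH (Pool.Agent.H49.Ent.cond F.p A True) (F.X J) (fun ω => (F.X x ω, F.W ω)) ≤
          m * (((x₁ : ℝ) - x) * Real.log 2) +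
          CH (Pool.Agent.H49.Ent.cond F.p A True) (F.X J) (fun ω => (F.X x₁ ω, F.W ω)) := by
        linarith
      have d5 := mul_le_mul_of_nonneg_left d4 ha0.le
      have hx0 : (0 : ℝ) ≤ x := Nat.cast_nonneg x
      have d6 : ((x₁ : ℝ) - x) ≤ κ * J + 1 := by linarith
      have d7 : M * ((x₁ : ℝ) - x) ≤ η / 2 * J + M := by
        calc M * ((x₁ : ℝ) - x) ≤ M * (κ * J + 1) := mul_le_mul_of_nonneg_left d6 hM0.le
          _ = M * κ * J + M := by ring
          _ ≤ _ := by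
            have := mul_le_mul_of_nonneg_right hκM hJr.le
            linarith
      have d8 : 0 ≤ m * Real.log 2 * ((x₁ : ℝ) - x) := by
        have : (x : ℝ) ≤ x₁ := by exact_mod_cast e3
        exact mul_nonneg (by positivity) (by linarith)
      have e5 : (m * Real.log 2 - R) * ((J : ℝ) - x₁) = (m * Real.log 2 - R) * ((J : ℝ) - x) -
          m * Real.log 2 * ((x₁ : ℝ) - x) + R * ((x₁ : ℝ) - x) := by ring
      have e6 : M * ((x₁ : ℝ) - x) = a * (m * (((x₁ : ℝ) - x) * Real.log 2)) +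
          R * ((x₁ : ℝ) - x) := by
        rw [hM]
        ring
      rw [mul_add] at d5
      rw [e5] at h5
      rw [e6] at d7
      have e7 : 0 ≤ η * J := by positivity
      linarith

end Pool.LK
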